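import Pool.Agent.helper49.Y2.Cor

set_option autoImplicit false

/-!
# Y2: the Yorioka ideals of the towers are pairwise different
-/

namespace H61.Y2

open H61.Yorioka Cardinal

lemma Neq_EE : EE (fun j => 2 * j) := by
  intro k
  have h1 : Filter.Tendsto (fun n : ℕ => ((n : ℝ)) / (2 : ℝ) ^ n) Filter.atTop (nhds 0) := by
    have := tendsto_pow_const_div_const_pow_of_one_lt 1 (by norm_num : (1 : ℝ) < 2)
    simpa using this
  have h2 : ∀ᶠ n : ℕ in Filter.atTop, (n : ℝ) / (2 : ℝ) ^ n < 1 / (2 * k + 1) :=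
    h1.eventually_lt_const (by positivity)
  obtain ⟨m, hm⟩ := Filter.eventually_atTop.1 h2
  refine ⟨m, fun j hj => ?_⟩
  have h3 := hm j hj
  rw [div_lt_div_iff₀ (by positivity) (by positivity)] at h3
  have h4 : ((k * (2 * j) : ℕ) : ℝ) ≤ ((2 ^ j : ℕ) : ℝ) := by
    push_cast
    nlinarith [(Nat.cast_nonneg j : (0 : ℝ) ≤ j)]
  exact_mod_cast h4

lemma Neq_LS {S T : Set (List Bool)} (h : S ⊆ T) : LS S ⊆ LS T := by
  intro x hx
  exact Set.Infinite.mono (fun t ht => ⟨h ht.1, ht.2⟩) hx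

/-- The ideal of the next tower is strictly smaller. -/
theorem Neq (hY0A : Y0A_stmt) (hY0B : Y0B_stmt) (hY0C : Y0C_stmt) (hTLS : TLS_stmt) (hGD : GD_stmt)
    (hCOR : COR_stmt) (hAVO : AVO_stmt) (hE1 : E1_stmt) (h : ℕ) :
    ¬ yoriokaIdeal ((fun x : ℕ => 2 ^ x)^[h]) ⊆ yoriokaIdeal ((fun x : ℕ => 2 ^ x)^[h + 1]) := by
  intro hsub
  have hf := Cor_tower h
  have hg := Cor_tower (h + 1)
  have hgf : ∀ n, ((fun x : ℕ => 2 ^ x)^[h + 1]) n = ((fun x : ℕ => 2 ^ x)^[h]) (2 ^ n) := fun n =>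
    Function.iterate_succ_apply _ _ _
  generalize ((fun x : ℕ => 2 ^ x)^[h]) = f at *
  generalize ((fun x : ℕ => 2 ^ x)^[h + 1]) = g at *
  have hZ := hsub (hY0B f hf _ (hY0A f hf _ (hE1 f _ hf Neq_EE)))
  obtain ⟨T, hT, hZT⟩ := hY0C g hg _ hZ
  obtain ⟨q, M, hq, hcor⟩ := hCOR T {x | ∃ j, 2 * j ≤ f (KK j) ∧ x.1 = 2 * j ∧
      x.2 = List.replicate (f (KK j) - 2 * j) false} (hGD g hg T hT) (by
    refine subset_trans (Neq_LS ?_) hZT
    rintro t ⟨l, s, p, ⟨j, hj, h1, h2⟩, h3, rfl⟩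
    refine ⟨j, ?_⟩
    simp only at h1 h2
    unfold AE
    rw [if_pos hj, Finset.mem_image]
    exact ⟨p, mem_level.2 (h3.trans h1), by rw [h2]⟩)
  obtain ⟨N₀, hN₀⟩ := hTLS g hg T hT
  obtain ⟨m₁, hm₁⟩ := hT 1
  obtain ⟨j, hj⟩ : ∃ j, j = N₀ + m₁ + M + q.length + 5 := ⟨_, rfl⟩
  have hj2 : j < 2 ^ j := Nat.lt_two_pow_self
  have hKK : 2 ^ j < KK j := by
    unfold KK
    exact Nat.lt_two_pow_self
  have hfK : KK j ≤ f (KK j) := hf.le_apply
  have h2j : 2 * j ≤ 2 ^ j := by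
    obtain ⟨i, rfl⟩ : ∃ i, j = i + 1 := ⟨j - 1, by omega⟩
    rw [pow_succ]
    have : i + 1 ≤ 2 ^ i := Nat.lt_two_pow_self
    omega
  have hcn : cn T (g (2 ^ j + 1)) ≤ 2 ^ j + 1 := by
    have := hm₁ (2 ^ j + 1) (by omega)
    rwa [pow_one] at this
  have h4 : 4 * cn T (g (2 ^ j + 1)) ≤ 2 ^ (2 * j - q.length) := by
    have h5 : 2 ^ (j + 3) ≤ 2 ^ (2 * j - q.length) := Nat.pow_le_pow_right (by norm_num) (by omega)
    have h6 : 2 ^ (j + 3) = 8 * 2 ^ j := by ring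
    omega
  obtain ⟨p, hp, hqp, hav⟩ := hAVO T q (2 * j) (g (2 ^ j + 1)) hq (by omega) h4
  have hgN : f (KK j) + KK j ≤ g (2 ^ j + 1) := by
    rw [hgf]
    have h7 : 2 ^ (2 ^ j + 1) = KK j + KK j := by
      unfold KK
      rw [pow_succ]
      ring
    rw [h7, add_comm (f (KK j))]
    exact hf.add_le_nat _ _
  set v := p ++ List.replicate (f (KK j) - 2 * j) false with hv
  have hvl : v.length = f (KK j) := by
    rw [hv, List.length_append, hp, List.length_replicate]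
    omega
  have hpv : p <+: v := ⟨_, rfl⟩
  have hgood : Good T v := by
    intro F hF
    have h8 := hN₀ (2 ^ j + 1) (by omega) F (fun t ht => by
      obtain ⟨h9, h10, h11⟩ := hF t ht
      refine ⟨h9, ?_⟩
      by_contra hcon
      push Not at hcon
      exact (hav t h9 (by omega) hcon).2 (hpv.trans h10))
    rw [hvl]
    have h12 : (1 / 2 : ℝ) ^ g (2 ^ j + 1) ≤ (1 / 2) ^ (f (KK j) + KK j) :=
      pow_le_pow_of_le_one (by norm_num) (by norm_num) hgN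
    have h13 : (4 : ℝ) * (2 * ((2 ^ j + 1 : ℕ) : ℝ) + 4) ≤ 2 ^ KK j := by
      have h14 : 4 * (2 * (2 ^ j + 1) + 4) ≤ 2 ^ KK j := by
        have h15 : 2 ^ (j + 5) ≤ 2 ^ KK j := by
          apply Nat.pow_le_pow_right (by norm_num)
          omega
        have h16 : 2 ^ (j + 5) = 32 * 2 ^ j := by ring
        omega
      exact_mod_cast h14
    have h17 : (1 / 2 : ℝ) ^ (f (KK j) + KK j) * 2 ^ KK j = (1 / 2) ^ f (KK j) := by
      rw [pow_add, mul_assoc, ← mul_pow]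
      norm_num
    have h18 : (0 : ℝ) < (1 / 2) ^ (f (KK j) + KK j) := by positivity
    have h19 : (0 : ℝ) ≤ 2 * ((2 ^ j + 1 : ℕ) : ℝ) + 4 := by positivity
    calc 4 * ∑ t ∈ F, (1 / 2 : ℝ) ^ t.length
        ≤ 4 * ((2 * ((2 ^ j + 1 : ℕ) : ℝ) + 4) * (1 / 2) ^ g (2 ^ j + 1)) := by
          push_cast at h8 ⊢
          linarith
      _ ≤ 4 * ((2 * ((2 ^ j + 1 : ℕ) : ℝ) + 4) * (1 / 2) ^ (f (KK j) + KK j)) := by
          have := mul_le_mul_of_nonneg_left h12 h19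
          linarith
      _ = (4 * (2 * ((2 ^ j + 1 : ℕ) : ℝ) + 4)) * (1 / 2) ^ (f (KK j) + KK j) := by ring
      _ ≤ 2 ^ KK j * (1 / 2) ^ (f (KK j) + KK j) := mul_le_mul_of_nonneg_right h13 h18.le
      _ = (1 / 2) ^ f (KK j) := by rw [mul_comm, h17]
  obtain ⟨t, ht1, ht2, ht3⟩ := hcor (2 * j) (List.replicate (f (KK j) - 2 * j) false)
    ⟨j, by omega, rfl, rfl⟩ (by rw [List.length_replicate]; omega) p hp hqp hgood
  have htl : t.length ≤ f (KK j) := by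
    rw [← hvl]
    exact ht3.length_le
  have hKpos : 0 < KK j := by omega
  obtain ⟨h20, h21⟩ := hav t ht1 ht2 (by omega)
  rcases le_total t.length p.length with hle | hle
  · exact h20 (List.prefix_of_prefix_length_le ht3 hpv hle)
  · exact h21 (List.prefix_of_prefix_length_le hpv ht3 hle)

end H61.Y2
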