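import Pool.Agent.helper61.Y2.Spec

set_option autoImplicit false

/-!
# Y2: covering number and uniformity of the Yorioka ideals, the chain of Q1 for functions of elementary growth
-/

namespace H61.Y2

open H61.Yorioka Cardinal MeasureTheory Set

open scoped ENNReal

/-- The covering number of `I`: the least size of a subfamily of `I` whose union is everything. -/
noncomputable def cov (I : Set (Set (ℕ → Bool))) : Cardinal.{0} :=
  sInf {κ | ∃ J : Set (Set (ℕ → Bool)), J ⊆ I ∧ ⋃₀ J = Set.univ ∧ κ = #J}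

/-- The uniformity of `I`: the least size of a set which is not in `I`. -/
noncomputable def non (I : Set (Set (ℕ → Bool))) : Cardinal.{0} :=
  sInf {κ | ∃ X : Set (ℕ → Bool), X ∉ I ∧ κ = #X}

lemma Cor_limSet_null {f : ℕ → ℕ} (hf : StrictMono f) {τ : ℕ → List Bool} (hτ : FarBelow f (ht τ)) :
    cantorMeasure (limSet τ) = 0 := by
  classical
  obtain ⟨m, hm⟩ := hτ 1
  have h1 : cantorMeasure {x | ∀ k, ∃ n ≥ k, x ∈ (if m ≤ n then cyl (τ n) else ∅)} = 0 := by
    have h2 : ∑' n, cantorMeasure (if m ≤ n then cyl (τ n) else ∅) ≠ ∞ := by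
      refine ne_top_of_le_ne_top ?_
        (ENNReal.tsum_le_tsum (g := fun n => (2⁻¹ : ℝ≥0∞) ^ n) fun n => ?_)
      · rw [ENNReal.tsum_geometric]; simp
      · split_ifs with hn
        · rw [measure_cyl]
          apply pow_le_pow_of_le_one zero_le (by simp)
          have h2 := hm n hn
          rw [pow_one] at h2
          exact (hf.le_apply).trans h2
        · simp
    have h3 := measure_limsup_atTop_eq_zero h2
    refine measure_mono_null ?_ h3
    intro x hx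
    rw [Filter.mem_limsup_iff_frequently_mem, Filter.frequently_atTop]
    exact hx
  refine measure_mono_null ?_ h1
  intro x hx k
  obtain ⟨n, hn, hx'⟩ := mem_limSet_iff.mp hx (max k m)
  refine ⟨n, (le_max_left _ _).trans hn, ?_⟩
  rw [if_pos ((le_max_right _ _).trans hn)]
  exact hx'

lemma Cor_univ {f : ℕ → ℕ} (hf : StrictMono f) : (Set.univ : Set (ℕ → Bool)) ∉ yoriokaIdeal f := by
  rintro ⟨τ, h1, h2⟩
  have h3 : cantorMeasure Set.univ = 0 := measure_mono_null h2 (Cor_limSet_null hf h1)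
  rw [measure_univ] at h3
  exact one_ne_zero h3

lemma Cor_singleton {f : ℕ → ℕ} (hf : StrictMono f) (x : ℕ → Bool) :
    ({x} : Set (ℕ → Bool)) ∈ yoriokaIdeal f := by
  refine ⟨fun n => res x (f (n ^ n)), ?_, ?_⟩
  · intro k
    refine ⟨k + 1, fun n hn => ?_⟩
    simp only [ht, res_length]
    apply hf.monotone
    exact Nat.pow_le_pow_right (by omega) (by omega)
  · rintro _ rfl
    exact mem_limSet_iff.mpr fun m => ⟨m, le_rfl, isInit_res _ _⟩

lemma Cor_subset {f g : ℕ → ℕ} (hf : StrictMono f) (h : ∃ m, ∀ n ≥ m, f n ≤ g n) :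
    yoriokaIdeal g ⊆ yoriokaIdeal f := by
  rintro X ⟨σ, h1, h2⟩
  refine ⟨σ, ?_, h2⟩
  obtain ⟨m, hm⟩ := h
  intro k
  rcases Nat.eq_zero_or_pos k with rfl | hk
  · obtain ⟨a, ha⟩ := h1 1
    refine ⟨max a (m + 1), fun i hi => ?_⟩
    have h3 := ha i ((le_max_left _ _).trans hi)
    have h4 : m + 1 ≤ i := (le_max_right _ _).trans hi
    rw [pow_one] at h3
    rw [pow_zero]
    exact ((hf.monotone (by omega)).trans (hm i (by omega))).trans h3
  · obtain ⟨a, ha⟩ := h1 k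
    refine ⟨max a m, fun i hi => ?_⟩
    have h3 := ha i ((le_max_left _ _).trans hi)
    have h4 : m ≤ i := (le_max_right _ _).trans hi
    exact (hm _ (h4.trans (Nat.le_self_pow hk.ne' i))).trans h3

lemma Cor_non {f g : ℕ → ℕ} (hf : StrictMono f) (h : ∃ m, ∀ n ≥ m, f n ≤ g n) :
    non (yoriokaIdeal g) ≤ non (yoriokaIdeal f) := by
  refine csInf_le_csInf (OrderBot.bddBelow _) ⟨_, Set.univ, Cor_univ hf, rfl⟩ ?_
  rintro κ ⟨X, h1, h2⟩
  exact ⟨X, fun h3 => h1 (Cor_subset hf h h3), h2⟩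

lemma Cor_cov {f g : ℕ → ℕ} (hf : StrictMono f) (hg : StrictMono g) (h : ∃ m, ∀ n ≥ m, f n ≤ g n) :
    cov (yoriokaIdeal f) ≤ cov (yoriokaIdeal g) := by
  refine csInf_le_csInf (OrderBot.bddBelow _) ?_ ?_
  · refine ⟨_, Set.range (fun x => ({x} : Set (ℕ → Bool))), ?_, ?_, rfl⟩
    · rintro _ ⟨x, rfl⟩
      exact Cor_singleton hg x
    · ext x
      simp
  · rintro κ ⟨J, h1, h2, h3⟩
    exact ⟨J, h1.trans (Cor_subset hf h), h2, h3⟩

lemma Cor_tower (h : ℕ) : StrictMono ((fun x : ℕ => 2 ^ x)^[h]) := by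
  have h1 : StrictMono (fun x : ℕ => 2 ^ x) := fun a b hab => Nat.pow_lt_pow_right (by norm_num) hab
  exact h1.iterate h

/-- The chain of Q1 for all functions of elementary growth at once. -/
theorem Cor_chain (hT : TOW_stmt) :
    (∀ f : ℕ → ℕ, StrictMono f → (∃ h m : ℕ, ∀ n ≥ m, f n ≤ (fun x : ℕ => 2 ^ x)^[h] n) →
      add (yoriokaIdeal f) < non (yoriokaIdeal f) ∧ non (yoriokaIdeal f) < cov (yoriokaIdeal f) ∧
        cov (yoriokaIdeal f) < cof (yoriokaIdeal f)) ↔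
    (non (yoriokaIdeal id) < cov (yoriokaIdeal id) ∧
      ∀ h : ℕ, add (yoriokaIdeal id) < non (yoriokaIdeal ((fun x : ℕ => 2 ^ x)^[h])) ∧
        cov (yoriokaIdeal ((fun x : ℕ => 2 ^ x)^[h])) < cof (yoriokaIdeal id)) := by
  constructor
  · intro H
    refine ⟨(H id strictMono_id ⟨0, 0, fun n _ => le_rfl⟩).2.1, fun h => ?_⟩
    have h1 := H _ (Cor_tower h) ⟨h, 0, fun n _ => le_rfl⟩
    have h2 := hT _ (Cor_tower h) ⟨h, 0, fun n _ => le_rfl⟩
    rw [h2.1, h2.2] at h1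
    exact ⟨h1.1, h1.2.2⟩
  · rintro ⟨H1, H2⟩ f hf ⟨h, hh⟩
    have h1 := hT f hf ⟨h, hh⟩
    obtain ⟨h2, h3⟩ := H2 h
    have h4 : ∃ m, ∀ n ≥ m, id n ≤ f n := ⟨0, fun n _ => hf.le_apply⟩
    rw [h1.1, h1.2]
    refine ⟨h2.trans_le (Cor_non hf hh), ?_, (Cor_cov hf (Cor_tower h) hh).trans_lt h3⟩
    exact ((Cor_non strictMono_id h4).trans_lt H1).trans_le (Cor_cov strictMono_id hf h4)

end H61.Y2
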