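import Pool.Agent.helper61.Y2.Asm1
import Pool.Agent.helper49.Y2.Cor
import Pool.Agent.helper44.Y2.Y0A
import Pool.Agent.helper96.Y2.Y0B
import Pool.Agent.helper52.Y2.Y0C
import Pool.Agent.helper79.Y2.Y0D
import Pool.Agent.helper25.Y2.Y0E
import Pool.Agent.helper64.Y2.Y0F
import Pool.Agent.helper11.Y2.SQM
import Pool.Agent.helper11.Y2.SQE
import Pool.Agent.helper11.Y2.SQT
import Pool.Agent.helper82.Y2.SQA
import Pool.Agent.helper34.Y2.SQC
import Pool.Agent.helper49.Y2.TLS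
import Pool.Agent.helper71.Y2.GD
import Pool.Agent.helper23.Y2.COR
import Pool.Agent.helper48.Y2.AVO
import Pool.Agent.helper11.Y2.GV
import Pool.Agent.helper65.Y2.E1
import Pool.Agent.helper76.Y2.E2
import Pool.Agent.helper84.Y2.E3
import Pool.Agent.helper11.Y2.E5
import Pool.Agent.helper69.Y2.U1
import Pool.Agent.helper3.Y2.U2
import Pool.Agent.helper42.Y2.U3
import Pool.Agent.helper23.Y2.CNT
import Pool.Agent.helper80.Y2.D1
import Pool.Agent.helper39.Y2.D2
import Pool.Agent.helper80.Y2.D3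
import Pool.Agent.helper65.Y2.D4
import Pool.Agent.helper20.Y2.O1
import Pool.Agent.helper96.Y2.L2C
import Pool.Agent.helper65.Y2.OB
import Pool.Agent.helper11.Y2.MON
import Pool.Agent.helper41.Y2.X1
import Pool.Agent.helper11.Y2.X2
import Pool.Agent.helper96.Y2.XP1
import Pool.Agent.helper5.Y2.XP2
import Pool.Agent.helper85.Y2.TOI
import Pool.Agent.helper29.Y2.FA
import Pool.Agent.helper11.Y2.TOW

set_option autoImplicit false

/-!
# Y2: assembly
-/

namespace H61.Y2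

open H61.Yorioka Cardinal

theorem main_E4 : E4_stmt := E4 Y0A Y0B Y0C E1 (E2 (GD TLS) COR AVO (GV TLS)) E3

theorem main_E6 : E6_stmt := E6 main_E4 E5 (SQT SQM)

theorem main_U4 : U4_stmt := U4 Y0B Y0C U1 (U2 (GD TLS) COR AVO (GV TLS)) U3

theorem main_L2 : L2_stmt :=
  L2 main_E6 D1 D2 main_U4 (L2C (O1 main_U4 (SQT SQM)) CNT D2 D3 (D4 D2) (SQT SQM)) (SQT SQM) SQM SQE

theorem main_OB : OB_stmt := OB main_L2 (SQT SQM)

theorem main_EXP : EXP_stmt :=
  EXP main_E6 (XP1 main_OB CNT X1 X2 (SQT SQM)) (XP2 main_OB (SQT SQM)) (SQT SQM) SQM SQE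

theorem main_TOI : TOI_stmt := TOI Y0A Y0B Y0C Y0D Y0E (SQT SQM)

theorem main_FA : FA_stmt := FA SQA SQC Y0F

theorem main_PA : PA_stmt := PA (MON main_L2 (SQT SQM)) main_TOI main_FA

theorem main_PB : PB_stmt := PB main_PA main_EXP main_TOI main_FA

theorem main_TOW : TOW_stmt := TOW main_PA main_PB

end H61.Y2
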