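import Pool.Agent.helper61.Y2.Spec

set_option autoImplicit false

namespace H61.Y2

open H61.Yorioka Cardinal

lemma TLS_mono (f : ℕ → ℕ) (hf : StrictMono f) (N i : ℕ) : f N + i ≤ f (N + i) := by
  induction i with
  | zero => exact le_rfl
  | succ i ih =>
    have h : f (N + i) < f (N + (i + 1)) := hf (by omega)
    omega

lemma TLS_fin (T : Set (List Bool)) (n : ℕ) : {t | t ∈ T ∧ t.length < n}.Finite := by
  refine (List.finite_length_lt Bool n).subset ?_
  rintro t ⟨-, h⟩
  exact h

lemma TLS_aux (f : ℕ → ℕ) (hf : StrictMono f) (T : Set (List Bool)) (N : ℕ)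
    (hc : ∀ M ≥ N, cn T (f M) ≤ M) (i : ℕ) :
    ∀ F : Finset (List Bool), (∀ t ∈ F, t ∈ T ∧ f N ≤ t.length ∧ t.length < f (N + i)) →
      ∑ t ∈ F, (1 / 2 : ℝ) ^ t.length ≤
        (1 / 2) ^ f N * ((2 * N + 4) - (2 * N + 2 * i + 4) * (1 / 2) ^ i) := by
  induction i with
  | zero =>
    intro F hF
    have h1 : F = ∅ := by
      rw [Finset.eq_empty_iff_forall_notMem]
      intro t ht
      obtain ⟨-, h2, h3⟩ := hF t ht
      simp only [add_zero] at h3
      omega
    rw [h1]
    simp
  | succ i ih =>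
    intro F hF
    have h1 := ih (F.filter fun t => t.length < f (N + i)) (by
      intro t ht
      rw [Finset.mem_filter] at ht
      exact ⟨(hF t ht.1).1, (hF t ht.1).2.1, ht.2⟩)
    have hmono : f N + i ≤ f (N + i) := TLS_mono f hf N i
    have h2 : ∑ t ∈ F.filter (fun t => ¬ t.length < f (N + i)), (1 / 2 : ℝ) ^ t.length ≤
        (N + i + 1) * ((1 / 2) ^ f N * (1 / 2) ^ i) := by
      have h3 : ∀ t ∈ F.filter (fun t => ¬ t.length < f (N + i)), (1 / 2 : ℝ) ^ t.length ≤ (1 / 2) ^ f N * (1 / 2) ^ i := by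
        intro t ht
        rw [Finset.mem_filter] at ht
        rw [← pow_add]
        exact pow_le_pow_of_le_one (by norm_num) (by norm_num) (by omega)
      have h4 : (F.filter (fun t => ¬ t.length < f (N + i))).card ≤ N + i + 1 := by
        have h5 : (↑(F.filter (fun t => ¬ t.length < f (N + i))) : Set (List Bool)) ⊆
            {t | t ∈ T ∧ t.length < f (N + (i + 1))} := by
          intro t ht
          rw [Finset.mem_coe, Finset.mem_filter] at ht
          exact ⟨(hF t ht.1).1, (hF t ht.1).2.2⟩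
        have h6 := Set.ncard_le_ncard h5 (TLS_fin T _)
        rw [Set.ncard_coe_finset] at h6
        have h7 := hc (N + (i + 1)) (by omega)
        unfold cn at h7
        omega
      refine (Finset.sum_le_card_nsmul _ _ _ h3).trans ?_
      rw [nsmul_eq_mul]
      refine mul_le_mul_of_nonneg_right ?_ (by positivity)
      exact_mod_cast h4
    rw [← Finset.sum_filter_add_sum_filter_not F (fun t => t.length < f (N + i))]
    refine (add_le_add h1 h2).trans (le_of_eq ?_)
    push_cast
    rw [pow_succ]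
    ring

theorem TLS : TLS_stmt := by
  intro f hf T hT
  obtain ⟨m, hm⟩ := hT 1
  refine ⟨m, fun N hN F hF => ?_⟩
  have hc : ∀ M ≥ N, cn T (f M) ≤ M := by
    intro M hM
    have h := hm M (hN.trans hM)
    rwa [pow_one] at h
  obtain ⟨i, hi⟩ : ∃ i, ∀ t ∈ F, t.length < f (N + i) := by
    refine ⟨F.sup List.length + 1, fun t ht => ?_⟩
    have h1 : t.length ≤ F.sup List.length := Finset.le_sup (f := List.length) ht
    have h2 := TLS_mono f hf N (F.sup List.length + 1)
    omega
  have h1 := TLS_aux f hf T N hc i F (fun t ht => ⟨(hF t ht).1, (hF t ht).2, hi t ht⟩)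
  refine h1.trans ?_
  rw [mul_comm]
  refine mul_le_mul_of_nonneg_right ?_ (by positivity)
  have h3 : (0 : ℝ) ≤ (2 * N + 2 * i + 4) * (1 / 2) ^ i := by positivity
  linarith

end H61.Y2
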